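import Mathlib
import Pool.Agent.Lib_helper78.COLDefs
import Pool.Agent.Lib_helper78.COLFinal

open Pool.Agent.Lib_helper78.COL

namespace Pool.Agent.Results.MP_fe6d1a_gt.NotFuchsian

/-- The negative answer to Q1: there is a countable, torsion-free, discrete group of orientation
preserving homeomorphisms of the circle which is pants-like `COL₂`, every nontrivial element of
which has at most two (indeed exactly two) fixed points, and which is not Fuchsian. The group is
free of countably infinite rank, and no homeomorphism of the circle whatsoever conjugates it into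
`PSL(2, ℝ)`. -/
theorem result : ∃ G : Subgroup (Circle ≃ₜ Circle),
    (G : Set (Circle ≃ₜ Circle)).Countable ∧ Nonempty (FreeGroup ℕ ≃* G) ∧
    (∀ g ∈ G, OrientationPreserving g) ∧ IsTorsionFreeGroup G ∧ IsDiscreteGroup G ∧
    PantsLikeCOL2 G ∧ (∀ g ∈ G, g ≠ 1 → (fixedPts g).encard = 2) ∧ ¬ IsFuchsian G ∧
    ∀ φ : Circle ≃ₜ Circle, ¬ ∀ g ∈ G, IsMobius (φ * g * φ⁻¹) :=
  main

end Pool.Agent.Results.MP_fe6d1a_gt.NotFuchsian
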